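import Mathlib

/-!
# The Hermite-Hadamard-Howe map on tensors

`V^{⊗ dn}` is regarded, as in the problem, as the space of multilinear maps on `V^*`. The tensor
factors are indexed by the pairs `(i, j)`: the `j`-th factor of the `i`-th of the `d` old blocks,
which is the `i`-th factor of the `j`-th of the `n` new blocks.
-/

set_option autoImplicit false

namespace Pool.Agent.N5.HH

open Equiv

variable (V : Type) [AddCommGroup V] [Module ℂ V] (d n : ℕ)

/-- `V^{⊗ dn} = (V^{⊗ n})^{⊗ d} = (V^{⊗ d})^{⊗ n}` as the space of multilinear maps on `V^*`. -/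
abbrev Tens : Type := MultilinearMap ℂ (fun _ : Fin d × Fin n => Module.Dual ℂ V) ℂ

/-- `S^d(S^n V) ⊆ V^{⊗ dn}`: the tensors which are invariant under all permutations of the `n`
factors inside each of the `d` old blocks and under all permutations of the `d` old blocks. -/
def SdSn : Submodule ℂ (Tens V d n) where
  carrier := {t | ∀ (τ : Perm (Fin d)) (σ : Fin d → Perm (Fin n))
    (l : Fin d × Fin n → Module.Dual ℂ V), t (fun p => l (τ p.1, σ p.1 p.2)) = t l}
  add_mem' := by
    intro a b ha hb τ σ l
    rw [add_apply, add_apply, ha, hb]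
  zero_mem' := by
    intro τ σ l
    rfl
  smul_mem' := by
    intro c a ha τ σ l
    rw [smul_apply, smul_apply, ha]

/-- If `dim V = n`, then `S_{(d^n)} V` is the one-dimensional module on which `g ∈ GL(V)` acts by
`det(g)^d`. This is the `S_{(d^n)} V`-isotypic component of `S^d(S^n V)`: the tensors
`t ∈ S^d(S^n V)` with `g t = det(g)^d t` for all `g ∈ GL(V)`. -/
def rectComponent : Submodule ℂ (Tens V d n) where
  carrier := {t | t ∈ SdSn V d n ∧ ∀ (g : V ≃ₗ[ℂ] V) (l : Fin d × Fin n → Module.Dual ℂ V),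
    t (fun p => l p ∘ₗ (g : V →ₗ[ℂ] V)) = LinearMap.det (g : V →ₗ[ℂ] V) ^ d * t l}
  add_mem' := by
    intro a b ha hb
    refine ⟨add_mem ha.1 hb.1, fun g l => ?_⟩
    rw [add_apply, add_apply, ha.2, hb.2, mul_add]
  zero_mem' := ⟨zero_mem _, fun g l => by simp⟩
  smul_mem' := by
    intro c a ha
    refine ⟨Submodule.smul_mem _ c ha.1, fun g l => ?_⟩
    rw [smul_apply, smul_apply, ha.2, smul_eq_mul, smul_eq_mul]
    ring

/-- The permutation `(i, j) ↦ (σ_j(i), ρ(j))` of the tensor factors: it permutes the factors inside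
each new block `j` by `σ_j` and the new blocks by `ρ`. -/
def newBlockPerm (ρ : Perm (Fin n)) (σ : Fin n → Perm (Fin d)) : Perm (Fin d × Fin n) where
  toFun p := (σ p.2 p.1, ρ p.2)
  invFun p := ((σ (ρ.symm p.2)).symm p.1, ρ.symm p.2)
  left_inv p := by simp
  right_inv p := by simp

/-- The Hermite-Hadamard-Howe map `h_{d,n}`: the average over all permutations of the factors
inside each of the `n` new blocks, and over all permutations of the `n` new blocks. (On
`S^d(S^n V)` it is the map `h_{d,n} : S^d(S^n V) → S^n(S^d V)`.) -/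
noncomputable def hhh : Tens V d n →ₗ[ℂ] Tens V d n :=
  ((n.factorial : ℂ) * (d.factorial : ℂ) ^ n)⁻¹ •
    ∑ ρ : Perm (Fin n), ∑ σ : Fin n → Perm (Fin d),
      (MultilinearMap.domDomCongrLinearEquiv ℂ ℂ (Module.Dual ℂ V) ℂ
        (newBlockPerm d n ρ σ)).toLinearMap

end Pool.Agent.N5.HH
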