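import Pool.Agent.N5.HH.PermSum

/-!
# The component `S_{(7^4)} V` occurs in `S^7(S^4 V)` for `dim V = 4`

The bracket monomial attached to the complements of the lines of the Fano plane is symmetrized and
evaluated at a tensor product of powers of seven linear forms.
-/

set_option autoImplicit false

namespace Pool.Agent.N5.HH.Ex

open Equiv

variable {V : Type} [AddCommGroup V] [Module ℂ V]

section gen

variable {d n : ℕ}

/-- Permutation of the factors of the old blocks. -/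
def oldPerm (τ : Perm (Fin d)) (σ : Fin d → Perm (Fin n)) : Perm (Fin d × Fin n) where
  toFun p := (τ p.1, σ p.1 p.2)
  invFun p := (τ.symm p.1, (σ (τ.symm p.1)).symm p.2)
  left_inv p := by simp
  right_inv p := by simp

/-- The symmetrization onto `S^d (S^n V)`. -/
noncomputable def symz (Q : Tens V d n) : Tens V d n :=
  ∑ τ : Perm (Fin d), ∑ σ : Fin d → Perm (Fin n), Q.domDomCongr (oldPerm τ σ)

theorem symz_apply (Q : Tens V d n) (l : Fin d × Fin n → Module.Dual ℂ V) :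
    symz Q l = ∑ τ : Perm (Fin d), ∑ σ : Fin d → Perm (Fin n),
      Q (fun p => l (τ p.1, σ p.1 p.2)) := by
  rw [symz, sum_apply]
  refine Finset.sum_congr rfl fun τ _ => ?_
  rw [sum_apply]
  refine Finset.sum_congr rfl fun σ _ => ?_
  rfl

theorem symz_mem (Q : Tens V d n) : symz Q ∈ SdSn V d n := by
  intro τ σ l
  rw [symz_apply, symz_apply]
  rw [← Equiv.sum_comp (Equiv.mulLeft τ)
    (fun τ' => ∑ σ' : Fin d → Perm (Fin n), Q (fun p => l (τ' p.1, σ' p.1 p.2)))]
  refine Finset.sum_congr rfl fun τ' _ => ?_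
  rw [← Equiv.sum_comp (Equiv.mulLeft (fun i => σ (τ' i)))
    (fun σ' : Fin d → Perm (Fin n) =>
      Q (fun p => l ((Equiv.mulLeft τ) τ' p.1, σ' p.1 p.2)))]
  refine Finset.sum_congr rfl fun σ' _ => ?_
  rfl

theorem symz_semi (Q : Tens V d n)
    (hQ : ∀ (g : V ≃ₗ[ℂ] V) (l : Fin d × Fin n → Module.Dual ℂ V),
      Q (fun p => l p ∘ₗ (g : V →ₗ[ℂ] V)) = LinearMap.det (g : V →ₗ[ℂ] V) ^ d * Q l)
    (g : V ≃ₗ[ℂ] V) (l : Fin d × Fin n → Module.Dual ℂ V) :
    symz Q (fun p => l p ∘ₗ (g : V →ₗ[ℂ] V)) =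
      LinearMap.det (g : V →ₗ[ℂ] V) ^ d * symz Q l := by
  rw [symz_apply, symz_apply, Finset.mul_sum]
  refine Finset.sum_congr rfl fun τ _ => ?_
  rw [Finset.mul_sum]
  refine Finset.sum_congr rfl fun σ _ => ?_
  exact hQ g (fun p => l (τ p.1, σ p.1 p.2))

theorem symz_rect (Q : Tens V d n)
    (hQ : ∀ (g : V ≃ₗ[ℂ] V) (l : Fin d × Fin n → Module.Dual ℂ V),
      Q (fun p => l p ∘ₗ (g : V →ₗ[ℂ] V)) = LinearMap.det (g : V →ₗ[ℂ] V) ^ d * Q l) :
    symz Q ∈ rectComponent V d n :=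
  ⟨symz_mem Q, symz_semi Q hQ⟩

end gen

/-- The letter of the `c`-th entry of the `k`-th bracket. -/
def blk : Fin 7 → Fin 4 → Fin 7 :=
  ![![3, 4, 5, 6], ![1, 2, 5, 6], ![1, 2, 3, 4], ![0, 2, 4, 6], ![0, 2, 3, 5], ![0, 1, 4, 5],
    ![0, 1, 3, 6]]

/-- The slot of the `c`-th entry of the `k`-th bracket. -/
def slot : Fin 7 → Fin 4 → Fin 4 :=
  ![![0, 0, 0, 0], ![0, 0, 1, 1], ![1, 1, 1, 1], ![0, 2, 2, 2], ![1, 3, 2, 2], ![2, 2, 3, 3],
    ![3, 3, 3, 3]]

/-- The tensor factor used by the `c`-th entry of the `k`-th bracket. -/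
def pos (p : Fin 7 × Fin 4) : Fin 7 × Fin 4 := (blk p.1 p.2, slot p.1 p.2)

theorem pos_inj : Function.Injective pos := by decide +kernel

theorem pos_surj : Function.Surjective pos :=
  Finite.injective_iff_surjective.mp pos_inj

/-- The matrix of the `k`-th bracket. -/
noncomputable def brM (b : Module.Basis (Fin 4) ℂ V) (l : Fin 7 × Fin 4 → Module.Dual ℂ V) (k : Fin 7) :
    Matrix (Fin 4) (Fin 4) ℂ :=
  Matrix.of fun c r => l (pos (k, c)) (b r)

theorem brM_update_ne [DecidableEq (Fin 7 × Fin 4)] (b : Module.Basis (Fin 4) ℂ V)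
    (l : Fin 7 × Fin 4 → Module.Dual ℂ V) (p : Fin 7 × Fin 4) (x : Module.Dual ℂ V) (k : Fin 7)
    (hk : k ≠ p.1) : brM b (Function.update l (pos p) x) k = brM b l k := by
  ext c r
  simp only [brM, Matrix.of_apply]
  rw [Function.update_of_ne]
  intro h
  exact hk (congrArg Prod.fst (pos_inj h))

theorem brM_update_eq [DecidableEq (Fin 7 × Fin 4)] (b : Module.Basis (Fin 4) ℂ V)
    (l : Fin 7 × Fin 4 → Module.Dual ℂ V) (p : Fin 7 × Fin 4) (x : Module.Dual ℂ V) :
    brM b (Function.update l (pos p) x) p.1 = (brM b l p.1).updateRow p.2 (fun r => x (b r)) := by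
  ext c r
  by_cases hc : c = p.2
  · subst hc
    rw [Matrix.updateRow_self]
    simp only [brM, Matrix.of_apply]
    rw [Function.update_self]
  · rw [Matrix.updateRow_ne hc]
    simp only [brM, Matrix.of_apply]
    rw [Function.update_of_ne]
    intro h
    exact hc (congrArg Prod.snd (pos_inj h))

/-- The bracket monomial. -/
noncomputable def P (b : Module.Basis (Fin 4) ℂ V) : Tens V 7 4 where
  toFun l := ∏ k, (brM b l k).det
  map_update_add' := by
    intro _ l p' x y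
    obtain ⟨p, rfl⟩ := pos_surj p'
    have key : ∀ z, ∏ k, (brM b (Function.update l (pos p) z) k).det =
        ((brM b l p.1).updateRow p.2 (fun r => z (b r))).det *
          ∏ k ∈ Finset.univ.erase p.1, (brM b l k).det := by
      intro z
      rw [← Finset.mul_prod_erase _ _ (Finset.mem_univ p.1), brM_update_eq]
      congr 1
      refine Finset.prod_congr rfl fun k hk => ?_
      rw [brM_update_ne b l p z k (Finset.ne_of_mem_erase hk)]
    rw [key, key, key, ← add_mul, ← Matrix.det_updateRow_add]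
    rfl
  map_update_smul' := by
    intro _ l p' c x
    obtain ⟨p, rfl⟩ := pos_surj p'
    have key : ∀ z, ∏ k, (brM b (Function.update l (pos p) z) k).det =
        ((brM b l p.1).updateRow p.2 (fun r => z (b r))).det *
          ∏ k ∈ Finset.univ.erase p.1, (brM b l k).det := by
      intro z
      rw [← Finset.mul_prod_erase _ _ (Finset.mem_univ p.1), brM_update_eq]
      congr 1
      refine Finset.prod_congr rfl fun k hk => ?_
      rw [brM_update_ne b l p z k (Finset.ne_of_mem_erase hk)]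
    rw [key, key, smul_eq_mul, ← mul_assoc, ← Matrix.det_updateRow_smul]
    rfl

theorem P_apply (b : Module.Basis (Fin 4) ℂ V) (l : Fin 7 × Fin 4 → Module.Dual ℂ V) :
    P b l = ∏ k, (brM b l k).det := rfl

theorem P_comp (b : Module.Basis (Fin 4) ℂ V) (g : V →ₗ[ℂ] V)
    (l : Fin 7 × Fin 4 → Module.Dual ℂ V) :
    P b (fun p => l p ∘ₗ g) = LinearMap.det g ^ 7 * P b l := by
  have h : ∀ k, brM b (fun p => l p ∘ₗ g) k = brM b l k * LinearMap.toMatrix b b g := by
    intro k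
    ext c r
    rw [Matrix.mul_apply]
    simp only [brM, Matrix.of_apply, LinearMap.comp_apply]
    conv_lhs => rw [← b.sum_repr (g (b r)), map_sum]
    refine Finset.sum_congr rfl fun s _ => ?_
    rw [map_smul, smul_eq_mul, mul_comm, LinearMap.toMatrix_apply]
  rw [P_apply, P_apply]
  simp_rw [h, Matrix.det_mul, LinearMap.det_toMatrix]
  rw [Finset.prod_mul_distrib, Finset.prod_const, Finset.card_univ, Fintype.card_fin, mul_comm]

/-- The symmetrized bracket monomial. -/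
noncomputable def T (b : Module.Basis (Fin 4) ℂ V) : Tens V 7 4 := symz (P b)

theorem T_apply (b : Module.Basis (Fin 4) ℂ V) (l : Fin 7 × Fin 4 → Module.Dual ℂ V) :
    T b l = ∑ τ : Perm (Fin 7), ∑ σ : Fin 7 → Perm (Fin 4),
      P b (fun p => l (τ p.1, σ p.1 p.2)) :=
  symz_apply _ _

theorem T_mem (b : Module.Basis (Fin 4) ℂ V) : T b ∈ rectComponent V 7 4 :=
  symz_rect (P b) (fun g l => P_comp b (g : V →ₗ[ℂ] V) l)

/-- The seven linear forms, in coordinates. -/
def A (i r : ℕ) : ℤ :=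
  (([[1, 0, 0, 0], [0, 1, 0, 0], [0, 0, 1, 0], [0, 0, 0, 1], [-1, -1, 0, 1], [-1, 0, 1, -1],
    [1, 1, 1, -1]] : List (List ℤ)).getD i []).getD r 0

/-- The determinant of four of the seven linear forms, expanded. -/
def dt (a b c d : ℕ) : ℤ :=
  A a 0 * (A b 1 * (A c 2 * A d 3 - A c 3 * A d 2) - A b 2 * (A c 1 * A d 3 - A c 3 * A d 1)
    + A b 3 * (A c 1 * A d 2 - A c 2 * A d 1))
  - A a 1 * (A b 0 * (A c 2 * A d 3 - A c 3 * A d 2) - A b 2 * (A c 0 * A d 3 - A c 3 * A d 0)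
    + A b 3 * (A c 0 * A d 2 - A c 2 * A d 0))
  + A a 2 * (A b 0 * (A c 1 * A d 3 - A c 3 * A d 1) - A b 1 * (A c 0 * A d 3 - A c 3 * A d 0)
    + A b 3 * (A c 0 * A d 1 - A c 1 * A d 0))
  - A a 3 * (A b 0 * (A c 1 * A d 2 - A c 2 * A d 1) - A b 1 * (A c 0 * A d 2 - A c 2 * A d 0)
    + A b 2 * (A c 0 * A d 1 - A c 1 * A d 0))

theorem dt_eq_D : ∀ a b c d : Fin 7, dt a b c d = D a b c d := by decide +kernel

theorem det_four (x : Fin 4 → Fin 7) :
    (Matrix.of fun (c r : Fin 4) => ((A (x c) r : ℤ) : ℂ)).det =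
      ((D (x 0) (x 1) (x 2) (x 3) : ℤ) : ℂ) := by
  rw [← dt_eq_D, dt]
  rw [Matrix.det_succ_row_zero]
  simp only [Fin.sum_univ_four, Matrix.det_fin_three, Matrix.submatrix_apply, Matrix.of_apply]
  simp [Fin.succAbove, Fin.succ]
  ring

theorem term_ofFn (x : Fin 7 → ℕ) :
    term (List.ofFn x) = D (x 3) (x 4) (x 5) (x 6) * D (x 1) (x 2) (x 5) (x 6) *
      D (x 1) (x 2) (x 3) (x 4) * D (x 0) (x 2) (x 4) (x 6) * D (x 0) (x 2) (x 3) (x 5) *
      D (x 0) (x 1) (x 4) (x 5) * D (x 0) (x 1) (x 3) (x 6) := by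
  rfl

theorem P_eval (b : Module.Basis (Fin 4) ℂ V) (f : Fin 7 → Module.Dual ℂ V)
    (hf : ∀ i r, f i (b r) = ((A i r : ℤ) : ℂ)) (τ : Fin 7 → Fin 7) :
    P b (fun p => f (τ p.1)) = ((term (List.ofFn fun i => (τ i : ℕ)) : ℤ) : ℂ) := by
  have h : ∀ k, (brM b (fun p => f (τ p.1)) k).det =
      ((D (τ (blk k 0)) (τ (blk k 1)) (τ (blk k 2)) (τ (blk k 3)) : ℤ) : ℂ) := by
    intro k
    rw [← det_four (fun c => τ (blk k c))]
    congr 1
    ext c r
    simp only [brM, Matrix.of_apply, pos, hf]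
  rw [P_apply]
  simp_rw [h]
  rw [Fin.prod_univ_seven, term_ofFn]
  push_cast
  rfl

theorem sum_term : ∑ τ : Perm (Fin 7), term (List.ofFn fun i => (τ i : ℕ)) = -2016 := by
  rw [sum_perm_eq_SL 7 (fun i => (i : ℕ)) term, ← SL_term]
  rfl

theorem symz_eval {d n : ℕ} (Q : Tens V d n) (f : Fin d → Module.Dual ℂ V) :
    symz Q (fun p => f p.1) = (Fintype.card (Fin d → Perm (Fin n)) : ℂ) *
      ∑ τ : Perm (Fin d), Q (fun p => f (τ p.1)) := by
  rw [symz_apply, Finset.mul_sum]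
  refine Finset.sum_congr rfl fun τ _ => ?_
  change ∑ σ : Fin d → Perm (Fin n), Q (fun p => f (τ p.1)) = _
  rw [Finset.sum_const, Finset.card_univ, nsmul_eq_mul]

theorem symz_ne_zero {d n : ℕ} (Q : Tens V d n) (f : Fin d → Module.Dual ℂ V)
    (c : Perm (Fin d) → ℤ) (hQ : ∀ τ : Perm (Fin d), Q (fun p => f (τ p.1)) = (c τ : ℂ))
    (hc : ∑ τ, c τ ≠ 0) : symz Q ≠ 0 := by
  intro h0
  have h1 := symz_eval Q f
  rw [h0, zero_apply] at h1
  simp_rw [hQ] at h1
  rw [← Int.cast_sum] at h1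
  rcases mul_eq_zero.mp h1.symm with h | h
  · exact Fintype.card_ne_zero (Nat.cast_eq_zero.mp h)
  · exact hc (Int.cast_eq_zero.mp h)

/-- The seven linear forms. -/
noncomputable def frm (b : Module.Basis (Fin 4) ℂ V) (i : Fin 7) : Module.Dual ℂ V :=
  ∑ r : Fin 4, ((A i r : ℤ) : ℂ) • b.coord r

theorem frm_apply (b : Module.Basis (Fin 4) ℂ V) (i : Fin 7) (r : Fin 4) :
    frm b i (b r) = ((A i r : ℤ) : ℂ) := by
  rw [frm, LinearMap.sum_apply]
  simp only [LinearMap.smul_apply, Module.Basis.coord_apply, Module.Basis.repr_self, smul_eq_mul]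
  rw [Finset.sum_eq_single r]
  · simp
  · intro s _ hs
    rw [Finsupp.single_eq_of_ne hs, mul_zero]
  · intro h
    exact absurd (Finset.mem_univ r) h

theorem T_ne_zero (b : Module.Basis (Fin 4) ℂ V) : T b ≠ 0 :=
  symz_ne_zero (P b) (frm b) (fun τ => term (List.ofFn fun i => (τ i : ℕ)))
    (fun τ => P_eval b (frm b) (frm_apply b) τ) (by rw [sum_term]; decide)

theorem exists_ne_zero (hV : Module.finrank ℂ V = 4) :
    ∃ t ∈ rectComponent V 7 4, t ≠ 0 := by
  have : Module.Finite ℂ V := Module.finite_of_finrank_pos (by omega)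
  exact ⟨T (Module.finBasisOfFinrankEq ℂ V hV), T_mem _, T_ne_zero _⟩

end Pool.Agent.N5.HH.Ex
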