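import Pool.Agent.N5.HH.Defs

/-!
# For odd `d` the map `h_{d,n}` vanishes on the `S_{(d^n)} V`-isotypic component
-/

set_option autoImplicit false

namespace Pool.Agent.N5.HH

open Equiv Finset

/-! ### Polarisation -/

section polar

variable {ι κ W : Type} [Fintype ι] [DecidableEq ι] [DecidableEq κ] [AddCommGroup W] [Module ℂ W]

/-- The signed number of the sets which contain a proper subset is zero. -/
lemma signed_sum {r : ι → ι} (hr : ¬ Function.Surjective r) :
    ∑ S : Finset ι, (if ∀ p, r p ∈ S then (-1 : ℂ) ^ S.card else 0) = 0 := by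
  classical
  rw [Function.Surjective] at hr
  push Not at hr
  obtain ⟨q, hq⟩ := hr
  refine Finset.sum_involution (fun S _ => if q ∈ S then S.erase q else insert q S) ?_ ?_ ?_ ?_
  · intro S _
    by_cases h : q ∈ S
    · have h1 : (∀ p, r p ∈ S.erase q) ↔ ∀ p, r p ∈ S := by
        simp only [mem_erase]
        exact ⟨fun h p => (h p).2, fun h p => ⟨hq p, h p⟩⟩
      simp only [h, if_true, h1]
      split_ifs with h2
      · have h3 : S.card = (S.erase q).card + 1 := (Finset.card_erase_add_one h).symm
        rw [h3, pow_succ]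
        ring
      · ring
    · have h1 : (∀ p, r p ∈ insert q S) ↔ ∀ p, r p ∈ S := by
        simp only [mem_insert]
        exact ⟨fun h p => (h p).resolve_left (hq p), fun h p => Or.inr (h p)⟩
      simp only [h, if_false, h1]
      split_ifs with h2
      · rw [Finset.card_insert_of_notMem h, pow_succ]
        ring
      · ring
  · intro S _ _ h
    by_cases h1 : q ∈ S
    · simp only [h1, if_true] at h
      exact absurd h1 (Finset.erase_eq_self.mp h)
    · simp only [h1, if_false] at h
      exact h1 (Finset.insert_eq_self.mp h)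
  · intro S _
    exact mem_univ _
  · intro S _
    by_cases h : q ∈ S
    · simp [h, Finset.insert_erase h]
    · simp [h, Finset.erase_insert h]

/-- A multilinear map which is invariant under the permutations of the variables inside the classes
`c⁻¹(k)` and vanishes whenever the arguments are constant on these classes is zero. -/
lemma polar (c : ι → κ) (D : MultilinearMap ℂ (fun _ : ι => W) ℂ)
    (hsym : ∀ π : Perm ι, (∀ p, c (π p) = c p) → ∀ m, D (fun p => m (π p)) = D m)
    (hconst : ∀ l : κ → W, D (fun p => l (c p)) = 0) : D = 0 := by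
  classical
  ext m
  have h1 : ∀ S : Finset ι, ∑ r : ι → ι,
      (if (∀ p, r p ∈ S) ∧ (∀ p, c (r p) = c p) then D (fun p => m (r p)) else 0) = 0 := by
    intro S
    have h2 := D.map_sum_finset (fun _ i => m i)
      (fun p => (univ.filter fun i => i ∈ S ∧ c i = c p))
    have h3 := hconst (fun k => ∑ i ∈ univ.filter (fun i => i ∈ S ∧ c i = k), m i)
    rw [h3] at h2
    rw [Finset.sum_ite, Finset.sum_const_zero, add_zero]
    refine (Finset.sum_congr ?_ fun _ _ => rfl).trans h2.symm
    ext r
    simp [Fintype.mem_piFinset, forall_and]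
  have h2 : ∑ S : Finset ι, (-1 : ℂ) ^ S.card * ∑ r : ι → ι,
      (if (∀ p, r p ∈ S) ∧ (∀ p, c (r p) = c p) then D (fun p => m (r p)) else 0) = 0 :=
    Finset.sum_eq_zero fun S _ => by rw [h1, mul_zero]
  simp_rw [Finset.mul_sum] at h2
  rw [Finset.sum_comm] at h2
  have h3 : ∀ r : ι → ι, ∑ S : Finset ι, (-1 : ℂ) ^ S.card *
      (if (∀ p, r p ∈ S) ∧ (∀ p, c (r p) = c p) then D (fun p => m (r p)) else 0) =
      if Function.Surjective r ∧ (∀ p, c (r p) = c p) then (-1 : ℂ) ^ Fintype.card ι * D m else 0 := by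
    intro r
    by_cases hc : ∀ p, c (r p) = c p
    · by_cases hr : Function.Surjective r
      · rw [if_pos ⟨hr, hc⟩]
        rw [Finset.sum_eq_single univ]
        · rw [if_pos ⟨fun p => mem_univ _, hc⟩, Finset.card_univ]
          congr 1
          have hb : Function.Bijective r := Finite.surjective_iff_bijective.mp hr
          exact hsym (Equiv.ofBijective r hb) hc m
        · intro S _ hS
          rw [if_neg, mul_zero]
          rintro ⟨h, -⟩
          apply hS
          ext q
          obtain ⟨p, rfl⟩ := hr q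
          simp [h p]
        · intro h
          exact absurd (mem_univ _) h
      · rw [if_neg (fun h => hr h.1)]
        have h4 : ∀ S : Finset ι, (-1 : ℂ) ^ S.card *
            (if (∀ p, r p ∈ S) ∧ (∀ p, c (r p) = c p) then D (fun p => m (r p)) else 0) =
            (if ∀ p, r p ∈ S then (-1 : ℂ) ^ S.card else 0) * D (fun p => m (r p)) := by
          intro S
          by_cases h : ∀ p, r p ∈ S
          · rw [if_pos ⟨h, hc⟩, if_pos h]
          · rw [if_neg (fun h' => h h'.1), if_neg h]
            ring
        rw [Finset.sum_congr rfl fun S _ => h4 S, ← Finset.sum_mul, signed_sum hr, zero_mul]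
    · rw [if_neg (fun h => hc h.2)]
      apply Finset.sum_eq_zero
      intro S _
      rw [if_neg (fun h => hc h.2), mul_zero]
  rw [Finset.sum_congr rfl fun r _ => h3 r, Finset.sum_ite, Finset.sum_const_zero, add_zero,
    Finset.sum_const, nsmul_eq_mul] at h2
  rcases mul_eq_zero.mp h2 with h | h
  · exfalso
    rw [Nat.cast_eq_zero, Finset.card_eq_zero] at h
    have : (id : ι → ι) ∈ (∅ : Finset (ι → ι)) := by
      rw [← h, mem_filter]
      exact ⟨mem_univ _, Function.surjective_id, fun _ => rfl⟩
    simp at this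
  · rcases mul_eq_zero.mp h with h | h
    · exact absurd h (pow_ne_zero _ (by norm_num))
    · rw [h]
      rfl

end polar

/-! ### The sign under exchanging two new blocks -/

section sign

variable {V : Type} [AddCommGroup V] [Module ℂ V] {d n : ℕ}

lemma det_swap {a b : Fin n} (hab : a ≠ b) :
    LinearMap.det (LinearMap.funLeft ℂ ℂ (swap a b) : (Fin n → ℂ) →ₗ[ℂ] (Fin n → ℂ)) = -1 := by
  have h : (LinearMap.funLeft ℂ ℂ (swap a b) : (Fin n → ℂ) →ₗ[ℂ] (Fin n → ℂ)) =
      Matrix.toLin' ((swap a b).permMatrix ℂ) := by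
    ext i j
    simp [Matrix.toLin'_apply, LinearMap.funLeft_apply, Pi.single_apply]
  rw [h, LinearMap.det_toLin', Matrix.det_permutation, Perm.sign_swap hab]
  simp

lemma swap_const [FiniteDimensional ℂ V] (hV : Module.finrank ℂ V = n) (hd : Odd d)
    {t : Tens V d n} (ht : t ∈ rectComponent V d n) {a b : Fin n} (hab : a ≠ b)
    (l : Fin n → Module.Dual ℂ V) :
    t (fun p => l (swap a b p.2)) = - t (fun p => l p.2) := by
  by_cases h : ∃ u : V, u ≠ 0 ∧ ∀ j, l j u = 0
  · obtain ⟨u, hu, hlu⟩ := h
    obtain ⟨f, hf⟩ : ∃ f : Module.Dual ℂ V, f u ≠ 0 := by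
      by_contra hcon
      push Not at hcon
      exact hu ((Module.forall_dual_apply_eq_zero_iff ℂ u).mp hcon)
    have hdet : LinearMap.det (LinearMap.transvection ((f u)⁻¹ • f) u) = 2 := by
      rw [LinearMap.transvection.det, LinearMap.smul_apply, smul_eq_mul, inv_mul_cancel₀ hf]
      norm_num
    let g : V ≃ₗ[ℂ] V := LinearMap.equivOfDetNeZero (LinearMap.transvection ((f u)⁻¹ • f) u)
      (by rw [hdet]; norm_num)
    have hg : (g : V →ₗ[ℂ] V) = LinearMap.transvection ((f u)⁻¹ • f) u := by
      ext v
      rfl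
    have key : ∀ π : Perm (Fin n), t (fun p => l (π p.2)) = 0 := by
      intro π
      have h1 := ht.2 g (fun p => l (π p.2))
      have h2 : (fun p : Fin d × Fin n => l (π p.2) ∘ₗ (g : V →ₗ[ℂ] V)) =
          fun p => l (π p.2) := by
        funext p
        ext v
        rw [hg, LinearMap.comp_apply, LinearMap.transvection.apply, map_add, map_smul, hlu,
          smul_zero, add_zero]
      rw [h2, hg, hdet] at h1
      have h3 : ((2 : ℂ) ^ d - 1) * t (fun p => l (π p.2)) = 0 := by
        rw [sub_mul, one_mul, ← h1, sub_self]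
      rcases mul_eq_zero.mp h3 with h4 | h4
      · exfalso
        have h5 : ((2 : ℂ) ^ d) = ((1 : ℕ) : ℂ) := by
          rw [Nat.cast_one]
          exact sub_eq_zero.mp h4
        have h6 : (2 : ℕ) ^ d = 1 := by exact_mod_cast h5
        have h7 : d ≠ 0 := by
          rintro rfl
          exact absurd hd (by decide)
        exact absurd h6 (Nat.one_lt_two_pow h7).ne'
      · exact h4
    have h1 := key (swap a b)
    have h2 := key 1
    rw [h1]
    change _ = - t (fun p => l ((1 : Perm (Fin n)) p.2))
    rw [h2, neg_zero]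
  · push Not at h
    let L : V →ₗ[ℂ] (Fin n → ℂ) := LinearMap.pi l
    have hLinj : Function.Injective L := by
      rw [← LinearMap.ker_eq_bot, LinearMap.ker_eq_bot']
      intro u hu
      by_contra hne
      obtain ⟨j, hj⟩ := h u hne
      exact hj (congrFun hu j)
    let Le : V ≃ₗ[ℂ] (Fin n → ℂ) := LinearEquiv.ofInjectiveOfFinrankEq L hLinj (by simp [hV])
    have hLe : ∀ v j, Le v j = l j v := fun v j => rfl
    let P : (Fin n → ℂ) ≃ₗ[ℂ] (Fin n → ℂ) := LinearEquiv.funCongrLeft ℂ ℂ (swap a b)
    have hP : (P : (Fin n → ℂ) →ₗ[ℂ] (Fin n → ℂ)) = LinearMap.funLeft ℂ ℂ (swap a b) := rfl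
    let g : V ≃ₗ[ℂ] V := (Le.trans P).trans Le.symm
    have hdet : LinearMap.det (g : V →ₗ[ℂ] V) = -1 := by
      have h1 : (g : V →ₗ[ℂ] V) = (Le.symm : (Fin n → ℂ) →ₗ[ℂ] V) ∘ₗ
          (P : (Fin n → ℂ) →ₗ[ℂ] (Fin n → ℂ)) ∘ₗ (Le.symm.symm : V →ₗ[ℂ] (Fin n → ℂ)) := by
        ext v
        rfl
      rw [h1, LinearMap.det_conj, hP, det_swap hab]
    have h1 := ht.2 g (fun p => l p.2)
    have h2 : (fun p : Fin d × Fin n => l p.2 ∘ₗ (g : V →ₗ[ℂ] V)) =
        fun p => l (swap a b p.2) := by
      funext p
      ext v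
      have h3 : Le (g v) = P (Le v) := by
        change Le (Le.symm (P (Le v))) = _
        rw [LinearEquiv.apply_symm_apply]
      have h4 := congrFun h3 p.2
      rw [hLe] at h4
      rw [LinearMap.comp_apply]
      refine h4.trans ?_
      change Le v (swap a b p.2) = _
      rw [hLe]
    rw [h2, hdet, Odd.neg_one_pow hd] at h1
    rw [h1]
    ring

end sign

/-! ### The vanishing -/

section vanish

variable {V : Type} [AddCommGroup V] [Module ℂ V] {d n : ℕ}

/-- The sum over the permutations inside the new blocks. -/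
noncomputable def inner (t : Tens V d n) : Tens V d n :=
  ∑ σ : Fin n → Perm (Fin d), t.domDomCongr (newBlockPerm d n 1 σ)

lemma inner_apply (t : Tens V d n) (m : Fin d × Fin n → Module.Dual ℂ V) :
    inner t m = ∑ σ : Fin n → Perm (Fin d), t (fun p => m (σ p.2 p.1, p.2)) := by
  unfold inner
  rw [_root_.sum_apply]
  rfl

lemma inner_inv (t : Tens V d n) (σ' : Fin n → Perm (Fin d))
    (m : Fin d × Fin n → Module.Dual ℂ V) :
    inner t (fun p => m (σ' p.2 p.1, p.2)) = inner t m := by
  rw [inner_apply, inner_apply]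
  refine Fintype.sum_equiv (Equiv.mulLeft σ') _ _ fun σ => ?_
  rfl

lemma exists_col (π : Perm (Fin d × Fin n)) (hπ : ∀ p, (π p).2 = p.2) :
    ∃ σ : Fin n → Perm (Fin d), ∀ p, π p = (σ p.2 p.1, p.2) := by
  have hinj : ∀ j, Function.Injective fun i => (π (i, j)).1 := by
    intro j i i' h
    have h1 : π (i, j) = π (i', j) := Prod.ext h (by rw [hπ, hπ])
    exact congrArg Prod.fst (π.injective h1)
  refine ⟨fun j => Equiv.ofBijective (fun i => (π (i, j)).1)
    (Finite.injective_iff_bijective.mp (hinj j)), fun p => ?_⟩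
  exact Prod.ext rfl (hπ p)

lemma inner_swap [FiniteDimensional ℂ V] (hV : Module.finrank ℂ V = n) (hd : Odd d)
    {t : Tens V d n} (ht : t ∈ rectComponent V d n) {a b : Fin n} (hab : a ≠ b)
    (m : Fin d × Fin n → Module.Dual ℂ V) :
    inner t (fun p => m (p.1, swap a b p.2)) = - inner t m := by
  have h0 : inner t + (inner t).domDomCongr (newBlockPerm d n (swap a b) 1) = 0 := by
    apply polar (c := fun p : Fin d × Fin n => p.2)
    · intro π hπ m
      obtain ⟨σ, hσ⟩ := exists_col π hπ
      rw [add_apply, add_apply]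
      congr 1
      · have h1 : (fun p => m (π p)) = fun p => m (σ p.2 p.1, p.2) := by
          funext p
          rw [hσ]
        rw [h1, inner_inv]
      · change inner t (fun p => m (π (p.1, swap a b p.2))) =
          inner t (fun p => m (p.1, swap a b p.2))
        have h1 : (fun p : Fin d × Fin n => m (π (p.1, swap a b p.2))) =
            fun p => (fun q : Fin d × Fin n => m (q.1, swap a b q.2))
              ((fun j => σ (swap a b j)) p.2 p.1, p.2) := by
          funext p
          rw [hσ]
        rw [h1]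
        exact inner_inv t (fun j => σ (swap a b j)) (fun q => m (q.1, swap a b q.2))
    · intro l
      rw [add_apply]
      change inner t (fun p => l p.2) + inner t (fun p => l (swap a b p.2)) = 0
      rw [inner_apply, inner_apply, ← Finset.sum_add_distrib]
      apply Finset.sum_eq_zero
      intro σ _
      change t (fun p => l p.2) + t (fun p => l (swap a b p.2)) = 0
      rw [swap_const hV hd ht hab, add_neg_cancel]
  have h1 := congrArg (fun D : Tens V d n => D m) h0
  rw [add_apply] at h1
  change inner t m + inner t (fun p => m (p.1, swap a b p.2)) = 0 at h1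
  rw [eq_neg_iff_add_eq_zero, add_comm]
  exact h1

/-- For odd `d` and `n ≥ 2` the Hermite-Hadamard-Howe map `h_{d,n}` vanishes on the
`S_{(d^n)} V`-isotypic component of `S^d(S^n V)`, for `dim V = n`. -/
theorem vanish [FiniteDimensional ℂ V] (hV : Module.finrank ℂ V = n) (hd : Odd d) (hn : 2 ≤ n)
    {t : Tens V d n} (ht : t ∈ rectComponent V d n) : hhh V d n t = 0 := by
  obtain ⟨a, b, hab⟩ : ∃ a b : Fin n, a ≠ b :=
    ⟨⟨0, by omega⟩, ⟨1, by omega⟩, by simp [Fin.ext_iff]⟩
  have h1 : ∑ ρ : Perm (Fin n), ∑ σ : Fin n → Perm (Fin d),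
      (t.domDomCongr (newBlockPerm d n ρ σ)) = 0 := by
    ext m
    rw [_root_.sum_apply]
    have h2 : ∀ ρ : Perm (Fin n), (∑ σ : Fin n → Perm (Fin d),
        (t.domDomCongr (newBlockPerm d n ρ σ))) m = inner t (fun p => m (p.1, ρ p.2)) := by
      intro ρ
      rw [_root_.sum_apply, inner_apply]
      rfl
    rw [Finset.sum_congr rfl fun ρ _ => h2 ρ]
    have h3 : ∑ ρ : Perm (Fin n), inner t (fun p => m (p.1, ρ p.2)) =
        ∑ ρ : Perm (Fin n), - inner t (fun p => m (p.1, ρ p.2)) := by
      refine (Fintype.sum_equiv (Equiv.mulRight (swap a b)) _ _ fun ρ => ?_).symm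
      have h4 := inner_swap hV hd ht hab (fun p => m (p.1, ρ p.2))
      rw [← h4]
      rfl
    rw [Finset.sum_neg_distrib, eq_neg_iff_add_eq_zero, ← two_mul] at h3
    have h4 := (mul_eq_zero.mp h3).resolve_left two_ne_zero
    rw [h4]
    rfl
  unfold hhh
  rw [LinearMap.smul_apply, LinearMap.sum_apply]
  simp only [LinearMap.sum_apply]
  have h2 : (∑ ρ : Perm (Fin n), ∑ σ : Fin n → Perm (Fin d),
      (MultilinearMap.domDomCongrLinearEquiv ℂ ℂ (Module.Dual ℂ V) ℂ
        (newBlockPerm d n ρ σ)).toLinearMap t) = 0 := h1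
  rw [h2, smul_zero]

end vanish

end Pool.Agent.N5.HH
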